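import Pool.Agent.Ram3.Round

/-!
# The colouring theorem without a bound on the number of vertices
-/

set_option autoImplicit false

namespace Pool.Agent.Ram3

open Finset hiding dens
open Pool.Agent.Ram1

theorem col3 (lam C : ℝ) (hlam : 1 ≤ lam) (hC : 0 ≤ C) :
    ∃ κ : ℝ, 0 < κ ∧ ∃ k₀ : ℕ, ∀ k : ℕ, k₀ ≤ k → ∀ (n : ℕ) (P : ℕ → Finset ℕ),
    (∀ v, P v ⊆ range v) → (∀ v, v < n → ((P v).card : ℝ) ≤ lam * k) →
    (∀ v, v < n → (∑ u ∈ P v, ((P u ∩ P v).card : ℝ)) ≤ κ * k ^ 2) →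
    (∀ v, v < n → (∑ u ∈ P v, ∑ u' ∈ (P v).erase u, ((P u ∩ P u').card : ℝ)) ≤ κ * k ^ 3) →
    (n : ℝ) ≤ Real.exp (C * k) →
    ∃ f : ℕ → ℕ, (∀ v, v < n → f v < k - 1) ∧ ∀ v, v < n → ∀ u ∈ P v, f u ≠ f v := by
  set β : ℝ := Real.exp (-(5 * (C + lam) + 1)) with hβ
  have hβ0 : 0 < β := Real.exp_pos _
  set K : ℝ := 90 / β with hK
  have hK0 : 0 < K := by positivity
  set L : ℝ := 144 * K * lam / β with hL
  have hlam0 : 0 < lam := by linarith
  have hL0 : 0 < L := by positivity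
  set W : ℝ := Real.exp L with hW
  have hW1 : 1 < W := by rw [hW]; exact Real.one_lt_exp_iff.mpr hL0
  have hW0 : 0 < W := by linarith
  set κ : ℝ := β / (1200 * K * W ^ 2) with hκ
  have hκ0 : 0 < κ := by positivity
  refine ⟨κ, hκ0, max 20 ⌈2 * K * W⌉₊, ?_⟩
  intro k hk n P hP hcard hsp hpair hn
  have hk20 : 20 ≤ k := (le_max_left _ _).trans hk
  have hkKW : 2 * K * W ≤ k := (Nat.le_ceil _).trans (by exact_mod_cast (le_max_right _ _).trans hk)
  have hk0 : (0 : ℝ) < k := by exact_mod_cast (by omega : 0 < k)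
  set d : ℝ := lam * k with hd
  have hkd : (k : ℝ) ≤ d := by rw [hd]; nlinarith
  set δ : ℝ := K / k with hδ
  have hδ0 : 0 < δ := by positivity
  have hδW : δ * W ≤ 1 / 2 := by
    rw [hδ, div_mul_eq_mul_div, div_le_iff₀ hk0]
    linarith
  obtain ⟨p, S⟩ := Sys_exists P hP W δ hW1.le hδ0 hδW
  set r : ℕ := k / 4 with hr
  have hr5 : (k : ℝ) ≤ 5 * r := by
    have : k ≤ 5 * r := by omega
    exact_mod_cast this
  have hr0 : (0 : ℝ) < r := by linarith
  -- the mean
  have hlog : Real.log W = L := by rw [hW, Real.log_exp]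
  have hκ' : 6 * δ * d / Real.log W = β / 24 := by
    rw [hlog, hδ, hd, hL]
    field_simp
    norm_num
  have hlo : ∀ v, v < n → δ * (1 - β / 24) ≤ Ex p n (fun I => if v ∈ I then 1 else 0) := by
    intro v hv
    have h1 : 4 * δ * W ^ 2 * ∑ u ∈ P v, ((P u ∩ P v).card : ℝ) ≤ d := by
      calc 4 * δ * W ^ 2 * ∑ u ∈ P v, ((P u ∩ P v).card : ℝ)
          ≤ 4 * δ * W ^ 2 * (κ * k ^ 2) :=
            mul_le_mul_of_nonneg_left (hsp v hv) (by positivity)
        _ = β / 300 * k := by rw [hδ, hκ]; field_simp; norm_num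
        _ ≤ 1 * k := by
            apply mul_le_mul_of_nonneg_right _ hk0.le
            have : β ≤ 1 := by
              rw [hβ, Real.exp_le_one_iff]
              linarith
            linarith
        _ ≤ d := by linarith
    have h2 := mean_ge S d v n hv (hcard v hv) h1 hW1
    rwa [hκ'] at h2
  -- one round
  have hround : ∀ v, v < n → ∀ T, T ⊆ P v → (r : ℝ) ≤ (T.card : ℝ) →
      Ex p n (fun I => Real.exp (-((T ∩ I).card : ℝ))) ≤ β := by
    intro v hv T hT hrT
    have hTn : T ⊆ range n := by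
      intro x hx
      have h1 := mem_range.mp (S.sub v (hT hx))
      exact mem_range.mpr (h1.trans hv)
    have hTc : 0 < T.card := by
      have : (0 : ℝ) < T.card := by linarith
      exact_mod_cast this
    have hQ : ∑ u ∈ T, ∑ u' ∈ T.erase u, ((P u ∩ P u').card : ℝ) ≤ κ * k ^ 3 := by
      refine le_trans ?_ (hpair v hv)
      refine le_trans (sum_le_sum (fun u _ => ?_))
        (sum_le_sum_of_subset_of_nonneg hT (fun u _ _ => sum_nonneg (fun u' _ => Nat.cast_nonneg _)))
      exact sum_le_sum_of_subset_of_nonneg (erase_subset_erase _ hT) (fun u' _ _ => Nat.cast_nonneg _)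
    refine (round_exp S n (β / 24) (κ * k ^ 3) hlo T hTn hTc hQ).trans ?_
    have ha : K / 5 ≤ δ * T.card := by
      have h1 : (k : ℝ) / 5 ≤ T.card := by linarith
      calc K / 5 = δ * (k / 5) := by rw [hδ]; field_simp
        _ ≤ δ * T.card := mul_le_mul_of_nonneg_left h1 hδ0.le
    set a : ℝ := δ * T.card with haa
    have ha0 : 0 < a := lt_of_lt_of_le (by positivity) ha
    have h1 : Real.exp (-(a / 2)) ≤ 2 / a := by
      rw [Real.exp_neg, inv_le_comm₀ (Real.exp_pos _) (by positivity)]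
      have := Real.add_one_le_exp (a / 2)
      rw [inv_div]
      linarith
    have h2 : 4 / a ^ 2 * (a + 2 * (β / 24) * a ^ 2 + 4 * δ ^ 3 * W ^ 2 * (κ * k ^ 3)) =
        4 / a + β / 3 + 16 * K ^ 3 * W ^ 2 * κ / a ^ 2 := by
      rw [hδ]
      field_simp
      ring
    have h3 : 6 / a ≤ β / 3 := by
      rw [div_le_iff₀ ha0]
      have : β / 3 * (K / 5) ≤ β / 3 * a := mul_le_mul_of_nonneg_left ha (by positivity)
      refine le_trans (le_of_eq ?_) this
      rw [hK]
      field_simp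
      norm_num
    have h4 : 16 * K ^ 3 * W ^ 2 * κ / a ^ 2 ≤ β / 3 := by
      rw [div_le_iff₀ (by positivity)]
      have h5 : (K / 5) ^ 2 ≤ a ^ 2 := pow_le_pow_left₀ (by positivity) ha 2
      have h6 : β / 3 * (K / 5) ^ 2 ≤ β / 3 * a ^ 2 := mul_le_mul_of_nonneg_left h5 (by positivity)
      refine le_trans (le_of_eq ?_) h6
      rw [hκ]
      field_simp
      norm_num
    have h5 : 2 / a + 4 / a = 6 / a := by ring
    rw [h2]
    linarith
  -- all rounds
  have hfin : n * Real.exp d * β ^ r < 1 := by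
    have h1 : β ^ r = Real.exp (-(r * (5 * (C + lam) + 1))) := by
      rw [hβ, ← Real.exp_nat_mul]
      congr 1
      ring
    rw [h1]
    have h2 : n * Real.exp d * Real.exp (-(r * (5 * (C + lam) + 1))) ≤
        Real.exp (C * k) * Real.exp d * Real.exp (-(r * (5 * (C + lam) + 1))) := by
      apply mul_le_mul_of_nonneg_right _ (Real.exp_pos _).le
      exact mul_le_mul_of_nonneg_right hn (Real.exp_pos _).le
    refine lt_of_le_of_lt h2 ?_
    rw [← Real.exp_add, ← Real.exp_add, Real.exp_lt_one_iff, hd]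
    have h3 : (C + lam) * k ≤ (C + lam) * (5 * r) := mul_le_mul_of_nonneg_left hr5 (by linarith)
    nlinarith
  obtain ⟨I, hI1, hI2⟩ := cover3 S n r d r β hβ0.le hcard hround hfin
  obtain ⟨f, hf1, hf2⟩ := colouring n r r P hP I hI1
    (fun v hv => by exact_mod_cast hI2 v hv)
  exact ⟨f, fun v hv => by have := hf1 v hv; omega, hf2⟩

end Pool.Agent.Ram3
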