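import Mathlib

/-!
# Small sets in graphs without complete bipartite subgraphs
-/

set_option autoImplicit false

namespace Pool.Agent.Ram3

open Finset
open scoped Classical

/-- Many vertices of large degree give a copy of the complete bipartite graph. -/
lemma ktt_heavy {W : Type} (F : SimpleGraph W) (t : ℕ)
    (hF : (completeBipartiteGraph (Fin t) (Fin t)).Free F)
    (S H : Finset W) (q : ℕ) (hH : ∀ x ∈ H, q ≤ (S.filter (fun y => F.Adj x y)).card) :
    H.card * q.choose t ≤ t * S.card.choose t := by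
  set r : W → Finset W → Prop := fun x T => ∀ y ∈ T, F.Adj x y with hr
  have h1 := sum_card_bipartiteAbove_eq_sum_card_bipartiteBelow (s := H) (t := powersetCard t S) r
  have h2 : H.card * q.choose t ≤ ∑ x ∈ H, ((powersetCard t S).bipartiteAbove r x).card := by
    rw [← smul_eq_mul, ← sum_const]
    apply sum_le_sum
    intro x hx
    have hsub : powersetCard t (S.filter (fun y => F.Adj x y)) ⊆
        (powersetCard t S).bipartiteAbove r x := by
      intro T hT
      rw [mem_powersetCard] at hT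
      rw [mem_bipartiteAbove, mem_powersetCard]
      exact ⟨⟨hT.1.trans (filter_subset _ _), hT.2⟩, fun y hy => (mem_filter.mp (hT.1 hy)).2⟩
    calc q.choose t ≤ ((S.filter (fun y => F.Adj x y)).card).choose t :=
          Nat.choose_le_choose t (hH x hx)
      _ = (powersetCard t (S.filter (fun y => F.Adj x y))).card := (card_powersetCard _ _).symm
      _ ≤ _ := card_le_card hsub
  have h3 : ∑ T ∈ powersetCard t S, (H.bipartiteBelow r T).card ≤ t * S.card.choose t := by
    rw [mul_comm, ← card_powersetCard, ← smul_eq_mul, ← sum_const]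
    apply sum_le_sum
    intro T hT
    by_contra hcon
    push Not at hcon
    obtain ⟨X, hX, hXc⟩ := exists_subset_card_eq hcon.le
    apply hF
    rw [SimpleGraph.completeBipartiteGraph_isContained_iff]
    refine ⟨X, T, by simpa using hXc, by simpa using (mem_powersetCard.mp hT).2, ?_⟩
    intro x hx y hy
    have := hX hx
    rw [mem_bipartiteBelow] at this
    exact this.2 y hy
  rw [h1] at h2
  exact h2.trans h3

/-- A graph without `K_{t,t}` spans few edges on small sets. -/
theorem ktt_sparse (t : ℕ) (c : ℝ) (hc : 0 < c) : ∃ k₀ : ℕ, ∀ k : ℕ, k₀ ≤ k →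
    ∀ (W : Type) [Fintype W] (F : SimpleGraph W),
    (completeBipartiteGraph (Fin t) (Fin t)).Free F → ∀ S : Finset W, (S.card : ℝ) ≤ k / c →
    ({x : Sym2 W | x ∈ F.edgeSet ∧ ∀ u ∈ x, u ∈ S}.ncard : ℝ) ≤ c * k ^ 2 := by
  set A : ℝ := 2 * (t + 1) / (c ^ 2 * (c ^ 3 / 4) ^ t) with hA
  have hA0 : 0 < A := by positivity
  refine ⟨⌈A⌉₊ + ⌈4 * t / c ^ 2⌉₊ + 1, ?_⟩
  intro k hk W _ F hF S hS
  have hk1 : (⌈A⌉₊ : ℝ) + ⌈4 * t / c ^ 2⌉₊ + 1 ≤ k := by exact_mod_cast hk
  have hkA : A ≤ k := by
    have := Nat.le_ceil A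
    have h2 : (0 : ℝ) ≤ (⌈4 * t / c ^ 2⌉₊ : ℝ) := Nat.cast_nonneg _
    linarith
  have hkt : 4 * t / c ^ 2 ≤ k := by
    have := Nat.le_ceil (4 * t / c ^ 2)
    have h2 : (0 : ℝ) ≤ (⌈A⌉₊ : ℝ) := Nat.cast_nonneg _
    linarith
  have hk0 : (0 : ℝ) < k := lt_of_lt_of_le hA0 hkA
  set τ : ℝ := c ^ 2 * k / 2 with hτ
  have hτ0 : 0 < τ := by positivity
  have hτt : 2 * (t : ℝ) ≤ τ := by
    rw [div_le_iff₀ (by positivity)] at hkt
    rw [hτ]
    linarith
  have hτA : (t : ℝ) < τ * (c ^ 3 / 4) ^ t := by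
    rw [hA, div_le_iff₀ (by positivity)] at hkA
    have h1 : τ * (c ^ 3 / 4) ^ t = (k * (c ^ 2 * (c ^ 3 / 4) ^ t)) / 2 := by rw [hτ]; ring
    rw [h1]
    linarith
  by_contra hcon
  push Not at hcon
  -- the degree sum
  set dg : W → ℕ := fun x => (S.filter (fun y => F.Adj x y)).card with hdg
  have hsum : ({x : Sym2 W | x ∈ F.edgeSet ∧ ∀ u ∈ x, u ∈ S}.ncard : ℝ) ≤
      ∑ x ∈ S, (dg x : ℝ) := by
    have e1 : (∑ x ∈ S, (dg x : ℝ)) =
        (((S ×ˢ S).filter (fun p => F.Adj p.1 p.2)).card : ℝ) := by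
      rw [card_filter, sum_product]
      push_cast
      apply sum_congr rfl
      intro x _
      rw [hdg]
      simp only
      rw [card_filter]
      push_cast
      rfl
    have e2 : {x : Sym2 W | x ∈ F.edgeSet ∧ ∀ u ∈ x, u ∈ S} ⊆
        ((((S ×ˢ S).filter (fun p => F.Adj p.1 p.2)).image
          (fun p : W × W => s(p.1, p.2)) : Finset (Sym2 W)) : Set (Sym2 W)) := by
      intro x hx
      induction x using Sym2.ind with
      | _ a b =>
        rw [Set.mem_ofPred_eq] at hx
        rw [mem_coe, mem_image]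
        refine ⟨(a, b), ?_, rfl⟩
        rw [mem_filter, mem_product]
        exact ⟨⟨hx.2 a (Sym2.mem_mk_left a b), hx.2 b (Sym2.mem_mk_right a b)⟩, hx.1⟩
    have e3 := Set.ncard_le_ncard e2 (Set.toFinite _)
    rw [Set.ncard_coe_finset] at e3
    rw [e1]
    exact_mod_cast e3.trans card_image_le
  set H : Finset W := S.filter (fun x => τ ≤ (dg x : ℝ)) with hH
  have hm0 : (0 : ℝ) ≤ (S.card : ℝ) := Nat.cast_nonneg _
  have hdm : ∀ x, (dg x : ℝ) ≤ S.card := fun x => by
    exact_mod_cast card_le_card (filter_subset _ _)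
  have hHc : τ < H.card := by
    have h1 : ∑ x ∈ S, (dg x : ℝ) ≤ H.card * (S.card : ℝ) + S.card * τ := by
      have h2 : ∑ x ∈ S, (dg x : ℝ) ≤ ∑ x ∈ S, ((if τ ≤ (dg x : ℝ) then (S.card : ℝ) else 0) + τ) := by
        apply sum_le_sum
        intro x _
        split
        · have := hdm x
          linarith
        · rename_i h
          push Not at h
          linarith
      refine h2.trans (le_of_eq ?_)
      rw [sum_add_distrib, ← sum_filter, sum_const, sum_const, nsmul_eq_mul, nsmul_eq_mul]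
    have h2 : (S.card : ℝ) * τ ≤ c * k ^ 2 / 2 := by
      calc (S.card : ℝ) * τ ≤ k / c * τ := mul_le_mul_of_nonneg_right hS hτ0.le
        _ = c * k ^ 2 / 2 := by rw [hτ]; field_simp
    have h3 : c * k ^ 2 / 2 < H.card * (S.card : ℝ) := by linarith
    have h4 : (H.card : ℝ) * (S.card : ℝ) ≤ H.card * (k / c) :=
      mul_le_mul_of_nonneg_left hS (Nat.cast_nonneg _)
    have h5 : c * k ^ 2 / 2 = τ * (k / c) := by rw [hτ]; field_simp
    rw [h5] at h3
    exact lt_of_mul_lt_mul_right (lt_of_lt_of_le h3 h4) (by positivity)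
  set q : ℕ := ⌈τ⌉₊ with hq
  have hqτ : τ ≤ q := Nat.le_ceil _
  have hkey := ktt_heavy F t hF S H q (fun x hx => by
    rw [hq, Nat.ceil_le]
    exact (mem_filter.mp hx).2)
  have hkey' : (H.card : ℝ) * (q.choose t : ℝ) ≤ t * (S.card.choose t : ℝ) := by
    exact_mod_cast hkey
  have hf : (0 : ℝ) < (t.factorial : ℝ) := by exact_mod_cast t.factorial_pos
  have h1 := Nat.pow_le_choose (α := ℝ) t q
  have h2 := Nat.choose_le_pow_div (α := ℝ) t S.card
  have h3 : τ / 2 ≤ ((q + 1 - t : ℕ) : ℝ) := by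
    have hqt : 2 * t ≤ q := by
      have : (2 * (t : ℝ)) ≤ q := hτt.trans hqτ
      exact_mod_cast this
    have : ((q + 1 - t : ℕ) : ℝ) = q + 1 - t := by
      rw [Nat.cast_sub (by omega)]
      push_cast
      ring
    rw [this]
    linarith
  have h4 : τ * ((τ / 2) ^ t / t.factorial) ≤ t * ((k / c) ^ t / t.factorial) := by
    calc τ * ((τ / 2) ^ t / t.factorial) ≤ H.card * (q.choose t : ℝ) := by
          apply mul_le_mul hHc.le _ (by positivity) (Nat.cast_nonneg _)
          refine le_trans ?_ h1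
          apply div_le_div_of_nonneg_right _ hf.le
          exact pow_le_pow_left₀ (by positivity) h3 t
      _ ≤ t * (S.card.choose t : ℝ) := hkey'
      _ ≤ t * ((k / c) ^ t / t.factorial) := by
          apply mul_le_mul_of_nonneg_left _ (Nat.cast_nonneg _)
          refine h2.trans ?_
          apply div_le_div_of_nonneg_right _ hf.le
          exact pow_le_pow_left₀ hm0 hS t
  have h5 : τ * (c ^ 3 / 4) ^ t * (k / c) ^ t ≤ t * (k / c) ^ t := by
    have e1 : (c ^ 3 / 4) ^ t * (k / c) ^ t = (τ / 2) ^ t := by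
      rw [← mul_pow]
      congr 1
      rw [hτ]
      field_simp
      norm_num
    rw [mul_assoc, e1]
    have e2 := mul_le_mul_of_nonneg_right h4 hf.le
    calc τ * (τ / 2) ^ t = τ * ((τ / 2) ^ t / t.factorial) * t.factorial := by field_simp
      _ ≤ t * ((k / c) ^ t / t.factorial) * t.factorial := e2
      _ = t * (k / c) ^ t := by field_simp
  have h6 : (0 : ℝ) < (k / c) ^ t := by positivity
  have h7 := le_of_mul_le_mul_right h5 h6
  linarith

end Pool.Agent.Ram3
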