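import Mathlib

/-!
# Sparse small sets give few paths of length two between earlier neighbours
-/

set_option autoImplicit false

namespace Pool.Agent.Ram3

open Finset

/-- The number of `x` weighted by pairs of elements of `T` above it. -/
lemma pairs_le (P : ℕ → Finset ℕ) (T X : Finset ℕ) (hX : ∀ u ∈ T, P u ⊆ X) :
    (∑ u ∈ T, ∑ u' ∈ T.erase u, ((P u ∩ P u').card : ℝ)) ≤
      ∑ x ∈ X, (((T.filter (fun u => x ∈ P u)).card : ℝ)) ^ 2 := by
  have h1 : ∀ u ∈ T, ∀ u' ∈ T, ((P u ∩ P u').card : ℝ) =
      ∑ x ∈ X, (if x ∈ P u then (1 : ℝ) else 0) * (if x ∈ P u' then 1 else 0) := by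
    intro u hu u' _
    have e1 : P u ∩ P u' = X.filter (fun x => x ∈ P u ∧ x ∈ P u') := by
      ext x
      rw [mem_inter, mem_filter]
      constructor
      · rintro ⟨h1, h2⟩
        exact ⟨hX u hu h1, h1, h2⟩
      · rintro ⟨_, h⟩
        exact h
    rw [e1, card_filter]
    push_cast
    apply sum_congr rfl
    intro x _
    by_cases h1 : x ∈ P u <;> by_cases h2 : x ∈ P u' <;> simp [h1, h2]
  have h2 : (∑ u ∈ T, ∑ u' ∈ T.erase u, ((P u ∩ P u').card : ℝ)) ≤
      ∑ u ∈ T, ∑ u' ∈ T, ((P u ∩ P u').card : ℝ) := by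
    apply sum_le_sum
    intro u _
    exact sum_le_sum_of_subset_of_nonneg (erase_subset _ _) (fun _ _ _ => Nat.cast_nonneg _)
  refine h2.trans (le_of_eq ?_)
  rw [sum_congr rfl (fun u hu => sum_congr rfl (fun u' hu' => h1 u hu u' hu'))]
  rw [sum_congr rfl (fun u _ => sum_comm), sum_comm]
  apply sum_congr rfl
  intro x _
  rw [pow_two, card_filter]
  push_cast
  rw [sum_mul_sum]

/-- Double counting. -/
lemma count_le (P : ℕ → Finset ℕ) (T H : Finset ℕ) :
    (∑ x ∈ H, ((T.filter (fun u => x ∈ P u)).card : ℝ)) = ∑ u ∈ T, ((P u ∩ H).card : ℝ) := by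
  have h1 : ∀ x, ((T.filter (fun u => x ∈ P u)).card : ℝ) =
      ∑ u ∈ T, if x ∈ P u then (1 : ℝ) else 0 := by
    intro x
    rw [card_filter]
    push_cast
    rfl
  have h2 : ∀ u, ((P u ∩ H).card : ℝ) = ∑ x ∈ H, if x ∈ P u then (1 : ℝ) else 0 := by
    intro u
    have e1 : P u ∩ H = H.filter (fun x => x ∈ P u) := by
      ext x
      rw [mem_inter, mem_filter, and_comm]
    rw [e1, card_filter]
    push_cast
    rfl
  simp_rw [h1, h2]
  exact sum_comm

theorem sum3 (lam κ : ℝ) (hlam : 1 ≤ lam) (hκ : 0 < κ) :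
    ∃ c : ℝ, 0 < c ∧ ∀ k : ℕ, 1 ≤ k → ∀ (n : ℕ) (P : ℕ → Finset ℕ),
    (∀ v, P v ⊆ Finset.range v) → (∀ v, v < n → ((P v).card : ℝ) ≤ lam * k) →
    (∀ S : Finset ℕ, S ⊆ Finset.range n → (S.card : ℝ) ≤ k / c →
      (∑ u ∈ S, ((P u ∩ S).card : ℝ)) ≤ c * k ^ 2) →
    (∀ v, v < n → (∑ u ∈ P v, ((P u ∩ P v).card : ℝ)) ≤ κ * k ^ 2) ∧
    (∀ v, v < n → (∑ u ∈ P v, ∑ u' ∈ (P v).erase u, ((P u ∩ P u').card : ℝ)) ≤ κ * k ^ 3) := by
  have hlam0 : 0 < lam := by linarith
  set η : ℝ := κ / (2 * lam ^ 3) with hη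
  have hη0 : 0 < η := by positivity
  set B : ℝ := lam / η + lam with hB
  have hB0 : 0 < B := by positivity
  set c : ℝ := min (min κ (κ / (2 * lam))) (1 / B) with hc
  have hc0 : 0 < c := by
    rw [hc, lt_min_iff, lt_min_iff]
    exact ⟨⟨hκ, by positivity⟩, by positivity⟩
  have hc1 : c ≤ κ := (min_le_left _ _).trans (min_le_left _ _)
  have hc2 : c ≤ κ / (2 * lam) := (min_le_left _ _).trans (min_le_right _ _)
  have hc3 : c ≤ 1 / B := min_le_right _ _
  have hBc : B ≤ 1 / c := by
    rw [le_div_iff₀ hc0]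
    rw [le_div_iff₀ hB0] at hc3
    linarith
  refine ⟨c, hc0, ?_⟩
  intro k hk n P hP hcard hS
  have hk0 : (0 : ℝ) < k := by exact_mod_cast hk
  have hkc : B * k ≤ k / c := by
    have := mul_le_mul_of_nonneg_right hBc hk0.le
    refine this.trans (le_of_eq ?_)
    ring
  have hlamB : lam * k ≤ B * k := by
    apply mul_le_mul_of_nonneg_right _ hk0.le
    rw [hB]
    have : 0 < lam / η := by positivity
    linarith
  have hPn : ∀ v, v < n → P v ⊆ range n := by
    intro v hv x hx
    have := mem_range.mp (hP v hx)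
    exact mem_range.mpr (this.trans hv)
  constructor
  · intro v hv
    refine (hS (P v) (hPn v hv) ((hcard v hv).trans (hlamB.trans hkc))).trans ?_
    exact mul_le_mul_of_nonneg_right hc1 (by positivity)
  · intro v hv
    have hTn : ∀ u ∈ P v, u < n := fun u hu => mem_range.mp (hPn v hv hu)
    set a : ℕ → ℝ := fun x => (((P v).filter (fun u => x ∈ P u)).card : ℝ) with ha
    have ha0 : ∀ x, 0 ≤ a x := fun x => Nat.cast_nonneg _
    have hau : ∀ x, a x ≤ lam * k := by
      intro x
      refine le_trans ?_ (hcard v hv)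
      show (((P v).filter (fun u => x ∈ P u)).card : ℝ) ≤ _
      exact_mod_cast card_le_card (filter_subset _ _)
    refine (pairs_le P (P v) (range n) (fun u hu => hPn u (hTn u hu))).trans ?_
    -- the total
    have htot : ∑ x ∈ range n, a x ≤ (lam * k) ^ 2 := by
      rw [ha, count_le P (P v) (range n)]
      calc (∑ u ∈ P v, ((P u ∩ range n).card : ℝ)) ≤ ∑ _u ∈ P v, lam * k := by
            apply sum_le_sum
            intro u hu
            refine le_trans ?_ (hcard u (hTn u hu))
            exact_mod_cast card_le_card inter_subset_left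
        _ = ((P v).card : ℝ) * (lam * k) := by rw [sum_const, nsmul_eq_mul]
        _ ≤ (lam * k) * (lam * k) := mul_le_mul_of_nonneg_right (hcard v hv) (by positivity)
        _ = (lam * k) ^ 2 := by ring
    set H : Finset ℕ := (range n).filter (fun x => η * lam * k ≤ a x) with hH
    have hHn : H ⊆ range n := filter_subset _ _
    have hHc : (H.card : ℝ) ≤ lam / η * k := by
      have h1 : (H.card : ℝ) * (η * lam * k) ≤ (lam * k) ^ 2 := by
        calc (H.card : ℝ) * (η * lam * k) = ∑ _x ∈ H, η * lam * k := by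
              rw [sum_const, nsmul_eq_mul]
          _ ≤ ∑ x ∈ H, a x := sum_le_sum (fun x hx => (mem_filter.mp hx).2)
          _ ≤ ∑ x ∈ range n, a x := sum_le_sum_of_subset_of_nonneg hHn (fun x _ _ => ha0 x)
          _ ≤ _ := htot
      have h2 : lam / η * k * (η * lam * k) = (lam * k) ^ 2 := by field_simp
      have h3 : 0 < η * lam * k := by positivity
      rw [← h2] at h1
      exact le_of_mul_le_mul_right h1 h3
    -- heavy part
    have hheavy : ∑ x ∈ H, a x ≤ c * k ^ 2 := by
      rw [ha, count_le P (P v) H]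
      have h1 := hS (H ∪ P v) (union_subset hHn (hPn v hv)) ?_
      · refine le_trans ?_ h1
        calc (∑ u ∈ P v, ((P u ∩ H).card : ℝ)) ≤ ∑ u ∈ P v, ((P u ∩ (H ∪ P v)).card : ℝ) := by
              apply sum_le_sum
              intro u _
              exact_mod_cast card_le_card (inter_subset_inter_left subset_union_left)
          _ ≤ _ := sum_le_sum_of_subset_of_nonneg subset_union_right (fun _ _ _ => Nat.cast_nonneg _)
      · refine le_trans ?_ hkc
        have h2 : ((H ∪ P v).card : ℝ) ≤ H.card + (P v).card := by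
          exact_mod_cast card_union_le _ _
        have h3 := hcard v hv
        rw [hB]
        linarith
    have hsplit : ∑ x ∈ range n, a x ^ 2 ≤ lam * k * ∑ x ∈ H, a x +
        η * lam * k * ∑ x ∈ range n, a x := by
      have h1 : ∑ x ∈ range n, a x ^ 2 ≤
          ∑ x ∈ range n, ((if η * lam * k ≤ a x then lam * k * a x else 0) + η * lam * k * a x) := by
        apply sum_le_sum
        intro x _
        have h2 := ha0 x
        have h3 := hau x
        split
        · have h4 : 0 ≤ η * lam * k * a x := by positivity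
          nlinarith
        · rename_i h4
          push Not at h4
          nlinarith
      refine h1.trans (le_of_eq ?_)
      rw [sum_add_distrib, hH, sum_filter, mul_sum, mul_sum]
      congr 1
      apply sum_congr rfl
      intro x _
      split
      · rfl
      · rw [mul_zero]
    refine hsplit.trans ?_
    have h1 : lam * k * ∑ x ∈ H, a x ≤ lam * k * (κ / (2 * lam) * k ^ 2) := by
      apply mul_le_mul_of_nonneg_left _ (by positivity)
      exact hheavy.trans (mul_le_mul_of_nonneg_right hc2 (by positivity))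
    have h2 : η * lam * k * ∑ x ∈ range n, a x ≤ η * lam * k * (lam * k) ^ 2 :=
      mul_le_mul_of_nonneg_left htot (by positivity)
    have h3 : lam * k * (κ / (2 * lam) * k ^ 2) = κ * k ^ 3 / 2 := by field_simp
    have h4 : η * lam * k * (lam * k) ^ 2 = κ * k ^ 3 / 2 := by rw [hη]; field_simp
    linarith

end Pool.Agent.Ram3
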