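import Pool.Agent.Ram3.Col3
import Pool.Agent.Ram3.Sum3
import Pool.Agent.Ram1.Main

/-!
# Ramsey numbers of graphs with few edges on small sets (MP_4e6f39_co)
-/

set_option autoImplicit false

namespace Pool.Agent.Ram3

open Finset hiding dens
open Pool.Agent.Ram1

open scoped Classical in
/-- The edges inside a set, counted through earlier neighbours. -/
theorem edge_sum (W : Type) [Fintype W] (F : SimpleGraph W) (e : W ≃ Fin (Fintype.card W))
    (P : ℕ → Finset ℕ)
    (hPe : ∀ w : W, P (e w) = (univ.filter (fun u => F.Adj w u ∧ e u < e w)).image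
      (fun u => (e u : ℕ))) (S : Finset W) :
    (∑ x ∈ S.image (fun u => (e u : ℕ)), ((P x ∩ S.image (fun u => (e u : ℕ))).card : ℝ)) ≤
      ({x : Sym2 W | x ∈ F.edgeSet ∧ ∀ u ∈ x, u ∈ S}.ncard : ℝ) := by
  have hinj : Function.Injective (fun u : W => (e u : ℕ)) := by
    intro a b hab
    exact e.injective (Fin.ext hab)
  rw [sum_image (fun a _ b _ hab => hinj hab)]
  have e1 : ∀ x ∈ S, (P (e x) ∩ S.image (fun u => (e u : ℕ))).card =
      (S.filter (fun y => F.Adj x y ∧ e y < e x)).card := by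
    intro x _
    rw [hPe, ← image_inter _ _ hinj, card_image_of_injective _ hinj]
    congr 1
    ext y
    simp only [mem_inter, mem_filter, mem_univ, true_and]
    tauto
  have e2 : (∑ x ∈ S, ((P (e x) ∩ S.image (fun u => (e u : ℕ))).card : ℝ)) =
      (((S ×ˢ S).filter (fun p => F.Adj p.1 p.2 ∧ e p.2 < e p.1)).card : ℝ) := by
    rw [sum_congr rfl (fun x hx => by rw [e1 x hx])]
    rw [card_filter, sum_product]
    push_cast
    apply sum_congr rfl
    intro x _
    rw [card_filter]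
    push_cast
    rfl
  rw [e2]
  have e3 : ((S ×ˢ S).filter (fun p => F.Adj p.1 p.2 ∧ e p.2 < e p.1)).card =
      (((S ×ˢ S).filter (fun p => F.Adj p.1 p.2 ∧ e p.2 < e p.1)).image
        (fun p : W × W => s(p.1, p.2))).card := by
    symm
    apply card_image_of_injOn
    intro p hp q hq hpq
    simp only [coe_filter, mem_product, Set.mem_ofPred_eq] at hp hq
    simp only [Sym2.eq_iff] at hpq
    rcases hpq with ⟨h1, h2⟩ | ⟨h1, h2⟩
    · exact Prod.ext h1 h2
    · exfalso
      have h3 := hp.2.2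
      have h4 := hq.2.2
      rw [h1, h2] at h3
      exact lt_asymm h3 h4
  rw [e3]
  have e4 : ((((S ×ˢ S).filter (fun p => F.Adj p.1 p.2 ∧ e p.2 < e p.1)).image
        (fun p : W × W => s(p.1, p.2)) : Finset (Sym2 W)) : Set (Sym2 W)) ⊆
      {x : Sym2 W | x ∈ F.edgeSet ∧ ∀ u ∈ x, u ∈ S} := by
    intro x hx
    rw [mem_coe, mem_image] at hx
    obtain ⟨p, hp, rfl⟩ := hx
    rw [mem_filter, mem_product] at hp
    refine ⟨hp.2.1, ?_⟩
    intro u hu
    rcases Sym2.mem_iff.mp hu with h | h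
    · rw [h]; exact hp.1.1
    · rw [h]; exact hp.1.2
  have e5 := Set.ncard_le_ncard e4 (Set.toFinite _)
  rw [Set.ncard_coe_finset] at e5
  exact_mod_cast e5

open scoped Classical in
/-- A graph with a degenerate order and few edges on all small sets is colourable. -/
theorem colourable3 (lam C : ℝ) (hlam : 1 ≤ lam) (hC : 0 ≤ C) : ∃ c : ℝ, 0 < c ∧ ∃ k₀ : ℕ,
    ∀ k : ℕ, k₀ ≤ k →
    ∀ (W : Type) [Fintype W] (F : SimpleGraph W) (e : W ≃ Fin (Fintype.card W)) (d : ℕ),
    (∀ v, (univ.filter (fun u => F.Adj v u ∧ e u < e v)).card ≤ d) →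
    (d : ℝ) ≤ lam * k →
    (∀ S : Finset W, (S.card : ℝ) ≤ k / c →
      ({x : Sym2 W | x ∈ F.edgeSet ∧ ∀ u ∈ x, u ∈ S}.ncard : ℝ) ≤ c * k ^ 2) →
    (Fintype.card W : ℝ) ≤ Real.exp (C * k) → F.Colorable (k - 1) := by
  obtain ⟨κ, hκ, k₀, hcol⟩ := col3 lam C hlam hC
  obtain ⟨c, hc, hsum⟩ := sum3 lam κ hlam hκ
  refine ⟨c, hc, k₀ + 1, ?_⟩
  intro k hk W _ F e d hd hdk hsp hn
  -- the back neighbourhood of a vertex
  set B : W → Finset W := fun v => univ.filter (fun u => F.Adj v u ∧ e u < e v) with hB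
  set P : ℕ → Finset ℕ := fun v => if h : v < Fintype.card W then
    (B (e.symm ⟨v, h⟩)).image (fun u => (e u : ℕ)) else ∅ with hP
  have hPe : ∀ w : W, P (e w) = (B w).image (fun u => (e u : ℕ)) := by
    intro w
    simp only [hP]
    rw [dif_pos (e w).2]
    simp
  have hinj : Function.Injective (fun u : W => (e u : ℕ)) := by
    intro a b hab
    exact e.injective (Fin.ext hab)
  have hPsub : ∀ v, P v ⊆ range v := by
    intro v
    by_cases h : v < Fintype.card W
    · intro x hx
      simp only [hP] at hx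
      rw [dif_pos h, mem_image] at hx
      obtain ⟨u, hu, rfl⟩ := hx
      simp only [hB, mem_filter] at hu
      have := hu.2.2
      rw [Equiv.apply_symm_apply] at this
      exact mem_range.mpr this
    · simp only [hP]
      rw [dif_neg h]
      exact empty_subset _
  have hsurj : ∀ v, v < Fintype.card W → ∃ w : W, (e w : ℕ) = v := by
    intro v hv
    exact ⟨e.symm ⟨v, hv⟩, by simp⟩
  have hBd : ∀ v, (B v).card ≤ d := hd
  have hPcard : ∀ v, v < Fintype.card W → ((P v).card : ℝ) ≤ lam * k := by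
    intro v hv
    obtain ⟨w, rfl⟩ := hsurj v hv
    rw [hPe, card_image_of_injective _ hinj]
    refine le_trans ?_ hdk
    exact_mod_cast hBd w
  have hS : ∀ S : Finset ℕ, S ⊆ range (Fintype.card W) → (S.card : ℝ) ≤ k / c →
      (∑ u ∈ S, ((P u ∩ S).card : ℝ)) ≤ c * k ^ 2 := by
    intro S hS hSc
    set S' : Finset W := univ.filter (fun w => (e w : ℕ) ∈ S) with hS'
    have h1 : S'.image (fun u => (e u : ℕ)) = S := by
      ext x
      simp only [hS', mem_image, mem_filter, mem_univ, true_and]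
      constructor
      · rintro ⟨w, hw, rfl⟩
        exact hw
      · intro hx
        obtain ⟨w, rfl⟩ := hsurj x (mem_range.mp (hS hx))
        exact ⟨w, hx, rfl⟩
    have h2 : S'.card = S.card := by
      rw [← h1, card_image_of_injective _ hinj]
    have h3 := edge_sum W F e P hPe S'
    rw [h1] at h3
    exact h3.trans (hsp S' (by rw [h2]; exact hSc))
  obtain ⟨h1, h2⟩ := hsum k (by omega) (Fintype.card W) P hPsub hPcard hS
  obtain ⟨f, hf1, hf2⟩ := hcol k (by omega) (Fintype.card W) P hPsub hPcard h1 h2 hn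
  refine ⟨⟨fun w => ⟨f (e w), ?_⟩, ?_⟩⟩
  · have := hf1 (e w) (e w).2
    omega
  · intro u w huw
    have hne : u ≠ w := huw.ne
    have key : ∀ a b : W, F.Adj a b → e a < e b → f (e a) ≠ f (e b) := by
      intro a b hab hlt
      apply hf2 (e b) (e b).2
      rw [hPe]
      apply mem_image_of_mem
      exact mem_filter.mpr ⟨mem_univ _, hab.symm, hlt⟩
    rw [SimpleGraph.top_adj]
    intro hh
    have hh' : f (e u) = f (e w) := congrArg Fin.val hh
    rcases lt_trichotomy (e u) (e w) with h | h | h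
    · exact key u w huw h hh'
    · exact hne (e.injective h)
    · exact key w u huw.symm h hh'.symm

/-- The Ramsey number is at least the number of vertices. -/
theorem card_le_ramsey {V : Type} [Finite V] (G : SimpleGraph V) :
    Nat.card V ≤ ramseyNumber G := by
  have hmem : ramseyNumber G ∈
      {n : ℕ | ∀ H : SimpleGraph (Fin n), G.IsContained H ∨ G.IsContained Hᶜ} :=
    Nat.sInf_mem (ramsey_exists G)
  have key : ∀ K : SimpleGraph (Fin (ramseyNumber G)), G.IsContained K →
      Nat.card V ≤ ramseyNumber G := by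
    rintro K ⟨f⟩
    have := Nat.card_le_card_of_injective f f.injective
    simpa using this
  rcases hmem ⊥ with h | h
  · exact key _ h
  · exact key _ h

theorem main3 (A : ℕ) (ε : ℝ) (hε : 0 < ε) : ∃ c : ℝ, 0 < c ∧ ∃ k₀ : ℕ,
    ∀ (V W : Type) [Finite V] [Fintype W] (G : SimpleGraph V) (F : SimpleGraph W) (k : ℕ),
    G.chromaticNumber = k → k₀ ≤ k → F.IsContained G → ε * k ≤ F.chromaticNumber.toNat →
    (∀ S : Finset W, (S.card : ℝ) ≤ k / c →
      ({x : Sym2 W | x ∈ F.edgeSet ∧ ∀ u ∈ x, u ∈ S}.ncard : ℝ) ≤ c * k ^ 2) →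
    A ^ k < ramseyNumber G ∧ ramseyNumber (⊤ : SimpleGraph (Fin k)) < ramseyNumber G := by
  classical
  -- constants
  set a : ℕ := A + 4 with ha
  have hapos : (0 : ℝ) < a := by
    rw [ha]; push_cast; positivity
  have ha1 : (1 : ℝ) ≤ a := by
    rw [ha]; push_cast
    have : (0 : ℝ) ≤ A := Nat.cast_nonneg _
    linarith
  have hloga : 0 ≤ Real.log a := Real.log_nonneg ha1
  set lam : ℝ := 2 * a / ε + 1 with hlamdef
  have hlam : 1 ≤ lam := by
    have : 0 ≤ 2 * (a : ℝ) / ε := by positivity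
    linarith
  obtain ⟨c₁, hc₁, k₁, hcol⟩ := colourable3 lam (Real.log a / ε) hlam (by positivity)
  set c : ℝ := min c₁ (c₁ * ε ^ 2) with hcdef
  have hc : 0 < c := by
    simp only [hcdef, lt_min_iff]
    exact ⟨hc₁, by positivity⟩
  refine ⟨c, hc, ⌈(k₁ : ℝ) / ε⌉₊ + 1, ?_⟩
  intro V W _ _ G F k hk hk₀ hFG hχ hsp
  have hkpos : 1 ≤ k := by omega
  have hkR : (1 : ℝ) ≤ k := by exact_mod_cast hkpos
  have hk₁ : (k₁ : ℝ) ≤ ε * k := by
    have h1 : (k₁ : ℝ) / ε ≤ ⌈(k₁ : ℝ) / ε⌉₊ := Nat.le_ceil _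
    have h2 : ((⌈(k₁ : ℝ) / ε⌉₊ + 1 : ℕ) : ℝ) ≤ k := by exact_mod_cast hk₀
    push_cast at h2
    have h3 : (k₁ : ℝ) / ε ≤ k := by linarith
    rw [div_le_iff₀ hε] at h3
    linarith
  -- it suffices to bound `a ^ k`
  suffices hmain : a ^ k < ramseyNumber G by
    refine ⟨lt_of_le_of_lt (Nat.pow_le_pow_left (by omega) k) hmain, ?_⟩
    refine lt_of_le_of_lt (ramsey_top_le k) (lt_of_le_of_lt (Nat.pow_le_pow_left (by omega) k) hmain)
  -- graphs with many vertices
  by_cases hbig : a ^ k < Fintype.card W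
  · refine lt_of_lt_of_le hbig (le_trans ?_ (card_le_ramsey G))
    obtain ⟨f⟩ := hFG
    have := Nat.card_le_card_of_injective f f.injective
    rwa [Nat.card_eq_fintype_card] at this
  have hcard : (Fintype.card W : ℝ) ≤ (a : ℝ) ^ k := by
    have := not_lt.mp hbig
    exact_mod_cast this
  set d : ℕ := 2 * a * k with hd
  have hN : (a ^ k) ^ 2 ≤ 2 ^ d := by
    have h1 : a ≤ 2 ^ a := Nat.lt_two_pow_self.le
    calc (a ^ k) ^ 2 = a ^ (2 * k) := by rw [← pow_mul]; ring_nf
      _ ≤ (2 ^ a) ^ (2 * k) := Nat.pow_le_pow_left h1 _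
      _ = 2 ^ d := by rw [← pow_mul, hd]; ring_nf
  by_cases hU : ∃ U : Finset W, U.Nonempty ∧ ∀ u ∈ U, d < (U.filter (fun w => F.Adj u w)).card
  · obtain ⟨U, hU1, hU2⟩ := hU
    have hd1 : 1 ≤ d := by
      rw [hd, ha]
      nlinarith
    obtain ⟨H, h1, h2⟩ := low F U hU1 d hd1 hU2 (a ^ k) hN
    exact lt_ramseyNumber G H (fun h => h1 (hFG.trans h)) (fun h => h2 (hFG.trans h))
  · exfalso
    push Not at hU
    obtain ⟨e, he⟩ := order F d hU
    -- the chromatic number of `F`
    have hkFle : F.chromaticNumber ≤ (k : ℕ) := by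
      have hGc : G.Colorable k := by
        rw [← SimpleGraph.chromaticNumber_le_iff_colorable, hk]
      obtain ⟨f⟩ := hFG
      exact (hGc.of_hom f.toHom).chromaticNumber_le
    set kF := F.chromaticNumber.toNat with hkF
    have hkFle' : kF ≤ k := by
      have := ENat.toNat_le_toNat hkFle (ENat.natCast_ne_top _)
      rwa [ENat.toNat_natCast] at this
    have hkF1 : k₁ ≤ kF := by
      have : (k₁ : ℝ) ≤ kF := hk₁.trans hχ
      exact_mod_cast this
    have hkFpos : (0 : ℝ) < kF := lt_of_lt_of_le (by positivity) hχ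
    have hkFk : (k : ℝ) ≤ kF / ε := by
      rw [le_div_iff₀ hε]
      linarith
    have hcol' := hcol kF hkF1 W F e d (by intro v; convert he v) ?_ ?_ ?_
    · have h1 : F.chromaticNumber ≤ (kF - 1 : ℕ) := hcol'.chromaticNumber_le
      have h2 : kF ≤ kF - 1 := by
        have := ENat.toNat_le_toNat h1 (ENat.natCast_ne_top _)
        rw [ENat.toNat_natCast] at this
        exact this
      have h3 : 0 < kF := by exact_mod_cast hkFpos
      omega
    · -- degree
      rw [hd, hlamdef]
      push_cast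
      have h1 : 2 * (a : ℝ) * k ≤ 2 * a * (kF / ε) :=
        mul_le_mul_of_nonneg_left hkFk (by positivity)
      have h2 : 2 * (a : ℝ) * (kF / ε) = 2 * a / ε * kF := by ring
      nlinarith
    · intro S hS
      have h1 : (S.card : ℝ) ≤ k / c := by
        refine hS.trans ?_
        have h2 : (kF : ℝ) ≤ k := by exact_mod_cast hkFle'
        have h3 : c ≤ c₁ := min_le_left _ _
        exact div_le_div₀ (by linarith) h2 hc h3
      refine (hsp S h1).trans ?_
      have h2 : c ≤ c₁ * ε ^ 2 := min_le_right _ _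
      have h3 : c * (k : ℝ) ^ 2 ≤ c₁ * ε ^ 2 * k ^ 2 :=
        mul_le_mul_of_nonneg_right h2 (by positivity)
      have h4 : (ε * (k : ℝ)) ^ 2 ≤ (kF : ℝ) ^ 2 := by
        apply pow_le_pow_left₀ (by positivity) hχ
      nlinarith
    · refine hcard.trans ?_
      have h1 : (a : ℝ) ^ k = Real.exp (k * Real.log a) := by
        rw [Real.exp_nat_mul, Real.exp_log hapos]
      rw [h1]
      apply Real.exp_le_exp.mpr
      have h2 : Real.log a / ε * kF = (kF / ε) * Real.log a := by ring
      rw [h2]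
      exact mul_le_mul_of_nonneg_right hkFk hloga

end Pool.Agent.Ram3
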