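import Pool.Agent.Ram1.Mean

/-!
# Sharp bounds for the mean and the pair correlations of the process
-/

set_option autoImplicit false

namespace Pool.Agent.Ram3

open Finset hiding dens
open Pool.Agent.Ram1

variable {P : ℕ → Finset ℕ} {W δ : ℝ} {p : ℕ → Finset ℕ → ℝ}

/-- Every vertex is in the random set with probability at least `δ (1 - 6 δ d / log W)`. -/
theorem mean_ge (S : Sys P W δ p) (d : ℝ) (v n : ℕ) (hv : v < n) (hd : ((P v).card : ℝ) ≤ d)
    (hsp : 4 * δ * W ^ 2 * ∑ u ∈ P v, ((P u ∩ P v).card : ℝ) ≤ d) (hW : 1 < W) :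
    δ * (1 - 6 * δ * d / Real.log W) ≤ Ex p n (fun I => if v ∈ I then 1 else 0) := by
  have hlog : 0 < Real.log W := Real.log_pos hW
  have hδ0 := S.pos
  rw [S.mem v n hv]
  have h1 : Ex p v (fun I => p v I) =
      Ex (off p (P v)) v (fun I => δ * (if dens p (P v) I ≤ W then 1 else 0)) := by
    rw [← Ex_change S.loc S.ne_one (P v) v (S.sub v)]
    congr 1
    funext I
    rw [S.eq v I]
    split
    · ring
    · ring
  rw [h1]
  have h2 : Ex (off p (P v)) v (fun I => δ - (2 * δ / Real.log W) * ∑ u ∈ P v, p u I) ≤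
      Ex (off p (P v)) v (fun I => δ * (if dens p (P v) I ≤ W then 1 else 0)) := by
    apply S.off_mono
    intro I _ hI
    have hs : 0 ≤ ∑ u ∈ P v, p u I := sum_nonneg (fun u _ => S.nonneg u I)
    split
    · have : 0 ≤ (2 * δ / Real.log W) * ∑ u ∈ P v, p u I := by positivity
      linarith
    · rename_i hgt
      have hgt := not_le.mp hgt
      have e1 : dens p (P v) I ≤ Real.exp (2 * ∑ u ∈ P v, p u I) := by
        rw [mul_sum, Real.exp_sum]
        unfold dens
        apply prod_le_prod
        · intro x _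
          split
          · exact le_refl _
          · apply inv_nonneg.mpr
            linarith [S.le_half x I]
        · intro x hx
          rw [if_neg (hI x hx)]
          exact inv_le_exp _ (S.nonneg x I) (S.le_half x I)
      have e2 : Real.log W < 2 * ∑ u ∈ P v, p u I := by
        rw [Real.log_lt_iff_lt_exp (by linarith)]
        linarith
      have e3 : 1 ≤ (2 * ∑ u ∈ P v, p u I) / Real.log W := by
        rw [le_div_iff₀ hlog]
        linarith
      have e4 : (2 * δ / Real.log W) * ∑ u ∈ P v, p u I =
          δ * ((2 * ∑ u ∈ P v, p u I) / Real.log W) := by ring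
      rw [e4]
      nlinarith
  refine le_trans ?_ h2
  have h3 : Ex (off p (P v)) v (fun I => δ - (2 * δ / Real.log W) * ∑ u ∈ P v, p u I) =
      δ - (2 * δ / Real.log W) * ∑ u ∈ P v, Ex (off p (P v)) v (fun I => p u I) := by
    have e1 : (fun I => δ - (2 * δ / Real.log W) * ∑ u ∈ P v, p u I) =
        fun I => δ + (-(2 * δ / Real.log W)) * ∑ u ∈ P v, p u I := by
      funext I
      ring
    rw [e1, Ex_add, Ex_const, Ex_mul, Ex_sum]
    ring
  rw [h3]
  have h4 : ∑ u ∈ P v, Ex (off p (P v)) v (fun I => p u I) ≤ 3 * δ * d := by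
    calc ∑ u ∈ P v, Ex (off p (P v)) v (fun I => p u I) ≤
        ∑ u ∈ P v, δ * (2 + 4 * δ * W ^ 2 * ((P u ∩ P v).card : ℝ)) :=
          sum_le_sum (fun u hu => S.tilt_le (P v) u v (mem_range.mp (S.sub v hu)))
      _ = δ * (2 * ((P v).card : ℝ) + 4 * δ * W ^ 2 * ∑ u ∈ P v, ((P u ∩ P v).card : ℝ)) := by
          rw [← mul_sum, sum_add_distrib, sum_const, nsmul_eq_mul, mul_sum]
          ring
      _ ≤ δ * (2 * d + d) := by
          apply mul_le_mul_of_nonneg_left _ hδ0.le
          linarith
      _ = 3 * δ * d := by ring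
  have h5 : (2 * δ / Real.log W) * ∑ u ∈ P v, Ex (off p (P v)) v (fun I => p u I) ≤
      (2 * δ / Real.log W) * (3 * δ * d) :=
    mul_le_mul_of_nonneg_left h4 (by positivity)
  have h6 : δ * (1 - 6 * δ * d / Real.log W) = δ - (2 * δ / Real.log W) * (3 * δ * d) := by
    field_simp
    ring
  linarith

/-- Every vertex is in the random set with probability at most `δ`. -/
theorem mean_le (S : Sys P W δ p) (v n : ℕ) (hv : v < n) :
    Ex p n (fun I => if v ∈ I then 1 else 0) ≤ δ := by
  rw [S.mem v n hv]
  have h1 : Ex p v (fun I => p v I) ≤ Ex p v (fun I => δ * (dens p (P v) I * 1)) := by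
    apply Ex_mono' p S.nonneg S.le_one
    intro I _
    rw [mul_one]
    exact S.le_dens v I
  rw [Ex_mul, Ex_change S.loc S.ne_one (P v) v (S.sub v), Ex_const, mul_one] at h1
  exact h1

/-- The probability that two vertices are in the random set. -/
theorem pair_le (S : Sys P W δ p) (u v n : ℕ) (huv : u < v) (hv : v < n) :
    Ex p n (fun I => if u ∈ I ∧ v ∈ I then 1 else 0) ≤
      δ ^ 2 * (1 + 4 * δ * W ^ 2 * ((P u ∩ P v).card : ℝ)) := by
  have hδ := S.pos
  have hW := S.one_le
  set c : ℝ := ((P u ∩ P v).card : ℝ) with hc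
  have hc0 : 0 ≤ c := Nat.cast_nonneg _
  -- step 1: reduce to `v + 1` steps
  have h1 : Ex p n (fun I => if u ∈ I ∧ v ∈ I then (1 : ℝ) else 0) =
      Ex p v (fun I => p v I * (if u ∈ I then 1 else 0)) := by
    rw [Ex_loc p (v + 1) n hv]
    · show Ex p v (fun I => p v I * (if u ∈ insert v I ∧ v ∈ insert v I then (1 : ℝ) else 0) +
        (1 - p v I) * (if u ∈ I ∧ v ∈ I then (1 : ℝ) else 0)) = _
      apply Ex_congr
      intro I hI
      have e1 : v ∉ I := fun h => by
        have := mem_range.mp (hI h)
        omega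
      have e2 : u ≠ v := by omega
      simp [e1, e2]
    · intro y I hy
      have e1 : v ≠ y := by omega
      have e2 : u ≠ y := by omega
      simp [e1, e2]
  rw [h1]
  -- step 2: change of measure
  have h2 : Ex p v (fun I => p v I * (if u ∈ I then 1 else 0)) ≤
      δ * Ex (off p (P v)) v (fun I => if u ∈ I then 1 else 0) := by
    rw [← Ex_change S.loc S.ne_one (P v) v (S.sub v), ← Ex_mul]
    apply Ex_mono' p S.nonneg S.le_one
    intro I _
    have e1 := S.le_dens v I
    have e2 : (0 : ℝ) ≤ (if u ∈ I then 1 else 0) := by split <;> norm_num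
    calc p v I * (if u ∈ I then 1 else 0) ≤ (δ * dens p (P v) I) * (if u ∈ I then 1 else 0) :=
          mul_le_mul_of_nonneg_right e1 e2
      _ = δ * (dens p (P v) I * (if u ∈ I then 1 else 0)) := by ring
  refine le_trans h2 ?_
  -- step 3: the process with `P v` forced out
  have h3 : Ex (off p (P v)) v (fun I => if u ∈ I then (1 : ℝ) else 0) =
      Ex (off p (P v)) u (fun I => off p (P v) u I) := by
    rw [Ex_loc (off p (P v)) (u + 1) v huv]
    · show Ex (off p (P v)) u (fun I => off p (P v) u I * (if u ∈ insert u I then (1 : ℝ) else 0) +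
        (1 - off p (P v) u I) * (if u ∈ I then (1 : ℝ) else 0)) = _
      apply Ex_congr
      intro I hI
      have e1 : u ∉ I := fun h => by
        have := mem_range.mp (hI h)
        omega
      simp [e1]
    · intro y I hy
      have e1 : u ≠ y := by omega
      simp [e1]
  rw [h3]
  have hoff : ∀ I, off p (P v) u I ≤ p u I := by
    intro I
    unfold off
    split
    · exact S.nonneg u I
    · exact le_refl _
  have h4 : Ex (off p (P v)) u (fun I => off p (P v) u I) ≤ δ * (1 + 4 * δ * W ^ 2 * c) := by
    by_cases hb : 2 * (δ * W) * c ≤ 1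
    · have e1 : Ex (off p (P v)) u (fun I => off p (P v) u I) ≤
          Ex (off p (P v)) u (fun I => (δ * Real.exp (2 * (δ * W) * c)) *
            dens (off p (P v)) (P u \ P v) I) := by
        apply S.off_mono
        intro I _ hI
        have f1 := S.le_dens u I
        have f2 := S.dens_le (P v) u I hI
        calc off p (P v) u I ≤ p u I := hoff I
          _ ≤ δ * dens p (P u) I := f1
          _ ≤ δ * (dens (off p (P v)) (P u \ P v) I * Real.exp (2 * (δ * W) * c)) :=
              mul_le_mul_of_nonneg_left f2 hδ.le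
          _ = (δ * Real.exp (2 * (δ * W) * c)) * dens (off p (P v)) (P u \ P v) I := by ring
      have e2 : Ex (off p (P v)) u (fun I => dens (off p (P v)) (P u \ P v) I) = 1 := by
        have e1 := Ex_change (q := off p (P v)) (S.off_loc (P v))
          (fun x I => by have := S.off_le_half (P v) x I; intro h; linarith) (P u \ P v) u (by
            intro x hx
            exact S.sub u (mem_sdiff.mp hx).1) (fun _ => 1)
        rw [Ex_const] at e1
        rw [← e1]
        congr 1
        funext I
        rw [mul_one]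
      rw [Ex_mul, e2, mul_one] at e1
      refine le_trans e1 ?_
      apply mul_le_mul_of_nonneg_left _ hδ.le
      have hx0 : 0 ≤ 2 * (δ * W) * c := by positivity
      have e3 := Real.abs_exp_sub_one_le (x := 2 * (δ * W) * c) (by rw [abs_of_nonneg hx0]; exact hb)
      rw [abs_of_nonneg hx0] at e3
      have e4 := le_trans (le_abs_self _) e3
      have e5 : W ≤ W ^ 2 := by nlinarith
      have e6 : δ * W * c ≤ δ * W ^ 2 * c :=
        mul_le_mul_of_nonneg_right (mul_le_mul_of_nonneg_left e5 hδ.le) hc0
      nlinarith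
    · have e1 : Ex (off p (P v)) u (fun I => off p (P v) u I) ≤
          Ex (off p (P v)) u (fun _ => δ * W) := by
        apply S.off_mono
        intro I _ _
        exact le_trans (hoff I) (S.le u I)
      rw [Ex_const] at e1
      refine le_trans e1 ?_
      apply mul_le_mul_of_nonneg_left _ hδ.le
      have e2 : 1 < 2 * (δ * W) * c := not_le.mp hb
      have e3 : W * 1 ≤ W * (2 * (δ * W) * c) := mul_le_mul_of_nonneg_left e2.le (by linarith)
      have e4 : 0 ≤ δ * W ^ 2 * c := by positivity
      nlinarith
  calc δ * Ex (off p (P v)) u (fun I => off p (P v) u I) ≤ δ * (δ * (1 + 4 * δ * W ^ 2 * c)) :=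
        mul_le_mul_of_nonneg_left h4 hδ.le
    _ = δ ^ 2 * (1 + 4 * δ * W ^ 2 * c) := by ring

end Pool.Agent.Ram3
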