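import Pool.Agent.Ram3.Pair
import Pool.Agent.Ram1.Iter

/-!
# One round of the process covers almost all of every large set of earlier neighbours
-/

set_option autoImplicit false

namespace Pool.Agent.Ram3

open Finset hiding dens
open Pool.Agent.Ram1

variable {P : ℕ → Finset ℕ} {W δ : ℝ} {p : ℕ → Finset ℕ → ℝ}

lemma pair_le' (S : Sys P W δ p) (u v n : ℕ) (huv : u ≠ v) (hu : u < n) (hv : v < n) :
    Ex p n (fun I => if u ∈ I ∧ v ∈ I then 1 else 0) ≤
      δ ^ 2 * (1 + 4 * δ * W ^ 2 * ((P u ∩ P v).card : ℝ)) := by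
  rcases lt_or_gt_of_ne huv with h | h
  · exact pair_le S u v n h hv
  · have := pair_le S v u n h hu
    rw [inter_comm] at this
    refine le_trans (le_of_eq ?_) this
    congr 1
    funext I
    by_cases h1 : u ∈ I <;> by_cases h2 : v ∈ I <;> simp [h1, h2]

lemma card_eq_sum (T I : Finset ℕ) :
    ((T ∩ I).card : ℝ) = ∑ u ∈ T, (if u ∈ I then (1 : ℝ) else 0) := by
  rw [← Finset.sum_filter, Finset.sum_const, Finset.filter_mem_eq_inter]
  simp

lemma card_sq (T I : Finset ℕ) :
    ((T ∩ I).card : ℝ) ^ 2 = ∑ u ∈ T, ((if u ∈ I then (1 : ℝ) else 0) +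
      ∑ u' ∈ T.erase u, (if u ∈ I ∧ u' ∈ I then (1 : ℝ) else 0)) := by
  rw [pow_two, card_eq_sum, sum_mul_sum]
  apply sum_congr rfl
  intro u hu
  rw [← add_sum_erase T _ hu]
  congr 1
  · split <;> norm_num
  · apply sum_congr rfl
    intro u' _
    by_cases h1 : u ∈ I <;> by_cases h2 : u' ∈ I <;> simp [h1, h2]

/-- The deviation of the number of elements of `T` in the random set from `δ |T|`. -/
theorem second (S : Sys P W δ p) (n : ℕ) (κ' Q : ℝ)
    (hlo : ∀ v, v < n → δ * (1 - κ') ≤ Ex p n (fun I => if v ∈ I then 1 else 0))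
    (T : Finset ℕ) (hT : T ⊆ range n)
    (hQ : ∑ u ∈ T, ∑ u' ∈ T.erase u, ((P u ∩ P u').card : ℝ) ≤ Q) :
    Ex p n (fun I => (((T ∩ I).card : ℝ) - δ * T.card) ^ 2) ≤
      δ * T.card + 2 * κ' * (δ * T.card) ^ 2 + 4 * δ ^ 3 * W ^ 2 * Q := by
  have hδ := S.pos
  have hW := S.one_le
  set a : ℝ := δ * T.card with ha
  have ha0 : 0 ≤ a := by positivity
  have hTn : ∀ u ∈ T, u < n := fun u hu => mem_range.mp (hT hu)
  -- first moment
  have h1 : a * (1 - κ') ≤ Ex p n (fun I => ((T ∩ I).card : ℝ)) := by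
    have e1 : Ex p n (fun I => ((T ∩ I).card : ℝ)) =
        ∑ u ∈ T, Ex p n (fun I => if u ∈ I then (1 : ℝ) else 0) := by
      rw [← Ex_sum p n T (fun u I => if u ∈ I then (1 : ℝ) else 0)]
      congr 1
      funext I
      exact card_eq_sum T I
    rw [e1]
    calc a * (1 - κ') = ∑ _u ∈ T, δ * (1 - κ') := by
          rw [sum_const, nsmul_eq_mul, ha]; ring
      _ ≤ _ := sum_le_sum (fun u hu => hlo u (hTn u hu))
  -- second moment
  have h2 : Ex p n (fun I => ((T ∩ I).card : ℝ) ^ 2) ≤ a + a ^ 2 + 4 * δ ^ 3 * W ^ 2 * Q := by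
    have e1 : Ex p n (fun I => ((T ∩ I).card : ℝ) ^ 2) =
        ∑ u ∈ T, (Ex p n (fun I => if u ∈ I then (1 : ℝ) else 0) +
          ∑ u' ∈ T.erase u, Ex p n (fun I => if u ∈ I ∧ u' ∈ I then (1 : ℝ) else 0)) := by
      have e2 : (fun I : Finset ℕ => ((T ∩ I).card : ℝ) ^ 2) = fun I =>
          ∑ u ∈ T, ((if u ∈ I then (1 : ℝ) else 0) +
            ∑ u' ∈ T.erase u, (if u ∈ I ∧ u' ∈ I then (1 : ℝ) else 0)) := by
        funext I
        exact card_sq T I
      rw [e2, Ex_sum p n T (fun u I => (if u ∈ I then (1 : ℝ) else 0) +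
            ∑ u' ∈ T.erase u, (if u ∈ I ∧ u' ∈ I then (1 : ℝ) else 0))]
      apply sum_congr rfl
      intro u _
      rw [Ex_add p n (fun I => if u ∈ I then (1 : ℝ) else 0) (fun I =>
        ∑ u' ∈ T.erase u, (if u ∈ I ∧ u' ∈ I then (1 : ℝ) else 0)),
        Ex_sum p n (T.erase u) (fun u' I => if u ∈ I ∧ u' ∈ I then (1 : ℝ) else 0)]
    rw [e1]
    have e3 : ∀ u ∈ T, (Ex p n (fun I => if u ∈ I then (1 : ℝ) else 0) +
          ∑ u' ∈ T.erase u, Ex p n (fun I => if u ∈ I ∧ u' ∈ I then (1 : ℝ) else 0)) ≤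
        δ + (δ * a + 4 * δ ^ 3 * W ^ 2 * ∑ u' ∈ T.erase u, ((P u ∩ P u').card : ℝ)) := by
      intro u hu
      apply add_le_add (mean_le S u n (hTn u hu))
      have e4 : ∑ u' ∈ T.erase u, Ex p n (fun I => if u ∈ I ∧ u' ∈ I then (1 : ℝ) else 0) ≤
          ∑ u' ∈ T.erase u, (δ ^ 2 + 4 * δ ^ 3 * W ^ 2 * ((P u ∩ P u').card : ℝ)) := by
        apply sum_le_sum
        intro u' hu'
        have h := pair_le' S u u' n (ne_of_mem_erase hu').symm (hTn u hu)
          (hTn u' (mem_of_mem_erase hu'))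
        refine h.trans (le_of_eq ?_)
        ring
      refine e4.trans ?_
      rw [sum_add_distrib, ← mul_sum, sum_const, nsmul_eq_mul]
      have e5 : ((T.erase u).card : ℝ) * δ ^ 2 ≤ δ * a := by
        have : ((T.erase u).card : ℝ) ≤ T.card := by
          exact_mod_cast card_le_card (erase_subset _ _)
        rw [ha]
        nlinarith [mul_le_mul_of_nonneg_right this (sq_nonneg δ)]
      linarith
    refine (sum_le_sum e3).trans ?_
    rw [sum_add_distrib, sum_add_distrib, sum_const, sum_const, nsmul_eq_mul,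
      nsmul_eq_mul, ← mul_sum T (fun u => ∑ u' ∈ T.erase u, ((P u ∩ P u').card : ℝ))
        (4 * δ ^ 3 * W ^ 2)]
    have e6 : 4 * δ ^ 3 * W ^ 2 * ∑ u ∈ T, ∑ u' ∈ T.erase u, ((P u ∩ P u').card : ℝ) ≤
        4 * δ ^ 3 * W ^ 2 * Q := mul_le_mul_of_nonneg_left hQ (by positivity)
    have e7 : (T.card : ℝ) * δ = a := by rw [ha]; ring
    have e8 : (T.card : ℝ) * (δ * a) = a ^ 2 := by rw [ha]; ring
    linarith
  have h3 : Ex p n (fun I => (((T ∩ I).card : ℝ) - a) ^ 2) =
      Ex p n (fun I => ((T ∩ I).card : ℝ) ^ 2) +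
        ((-(2 * a)) * Ex p n (fun I => ((T ∩ I).card : ℝ)) + a ^ 2) := by
    have e1 : (fun I : Finset ℕ => (((T ∩ I).card : ℝ) - a) ^ 2) = fun I =>
        ((T ∩ I).card : ℝ) ^ 2 + ((-(2 * a)) * ((T ∩ I).card : ℝ) + a ^ 2) := by
      funext I
      ring
    rw [e1, Ex_add p n (fun I => ((T ∩ I).card : ℝ) ^ 2) (fun I =>
      (-(2 * a)) * ((T ∩ I).card : ℝ) + a ^ 2), Ex_add p n (fun I =>
      (-(2 * a)) * ((T ∩ I).card : ℝ)) (fun _ => a ^ 2), Ex_mul, Ex_const]
  rw [h3]
  have h4 := mul_le_mul_of_nonneg_left h1 (show 0 ≤ 2 * a by positivity)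
  nlinarith

/-- One round, one set. -/
theorem round_exp (S : Sys P W δ p) (n : ℕ) (κ' Q : ℝ)
    (hlo : ∀ v, v < n → δ * (1 - κ') ≤ Ex p n (fun I => if v ∈ I then 1 else 0))
    (T : Finset ℕ) (hT : T ⊆ range n) (hne : 0 < T.card)
    (hQ : ∑ u ∈ T, ∑ u' ∈ T.erase u, ((P u ∩ P u').card : ℝ) ≤ Q) :
    Ex p n (fun I => Real.exp (-((T ∩ I).card : ℝ))) ≤
      Real.exp (-(δ * T.card / 2)) + 4 / (δ * T.card) ^ 2 *
        (δ * T.card + 2 * κ' * (δ * T.card) ^ 2 + 4 * δ ^ 3 * W ^ 2 * Q) := by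
  have h1 := second S n κ' Q hlo T hT hQ
  have hc : (0 : ℝ) < T.card := by exact_mod_cast hne
  have hδ := S.pos
  set a : ℝ := δ * T.card with ha
  have ha0 : 0 < a := by positivity
  have h2 : Ex p n (fun I => Real.exp (-((T ∩ I).card : ℝ))) ≤
      Ex p n (fun I => Real.exp (-(a / 2)) + 4 / a ^ 2 * (((T ∩ I).card : ℝ) - a) ^ 2) := by
    apply S.Ex_mono_plain
    intro I
    have hx : (0 : ℝ) ≤ ((T ∩ I).card : ℝ) := Nat.cast_nonneg _
    by_cases h : a / 2 ≤ ((T ∩ I).card : ℝ)
    · have e1 : Real.exp (-((T ∩ I).card : ℝ)) ≤ Real.exp (-(a / 2)) :=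
        Real.exp_le_exp.mpr (by linarith)
      have e2 : 0 ≤ 4 / a ^ 2 * (((T ∩ I).card : ℝ) - a) ^ 2 := by positivity
      linarith
    · push Not at h
      have e1 : Real.exp (-((T ∩ I).card : ℝ)) ≤ 1 := by
        rw [Real.exp_le_one_iff]; linarith
      have e2 : 1 ≤ 4 / a ^ 2 * (((T ∩ I).card : ℝ) - a) ^ 2 := by
        rw [div_mul_eq_mul_div, le_div_iff₀ (by positivity)]
        nlinarith
      have e3 := Real.exp_pos (-(a / 2))
      linarith
  refine h2.trans ?_
  rw [Ex_add p n (fun _ => Real.exp (-(a / 2))) (fun I =>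
    4 / a ^ 2 * (((T ∩ I).card : ℝ) - a) ^ 2), Ex_const, Ex_mul]
  have h3 := mul_le_mul_of_nonneg_left h1 (show 0 ≤ 4 / a ^ 2 by positivity)
  linarith

/-- One round: a good independent set exists. -/
lemma one_round3 (S : Sys P W δ p) (n : ℕ) (r β : ℝ)
    (hround : ∀ v, v < n → ∀ T, T ⊆ P v → r ≤ (T.card : ℝ) →
      Ex p n (fun I => Real.exp (-((T ∩ I).card : ℝ))) ≤ β) (U : Finset ℕ) :
    ∃ I, Good P n I ∧ pot P n r 1 (U \ I) ≤ β * pot P n r 1 U := by
  obtain ⟨I, hI, hle⟩ := Ex_exists p S.nonneg S.le_one (Good P) Good.zero Good.skip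
    (Good.take S) n (fun I => pot P n r 1 (U \ I))
  refine ⟨I, hI, hle.trans ?_⟩
  unfold pot
  rw [Ex_sum p n (range n) (fun v I => if r ≤ ((P v ∩ (U \ I)).card : ℝ) then
    Real.exp (1 * ((P v ∩ (U \ I)).card : ℝ)) else 0), Finset.mul_sum]
  refine Finset.sum_le_sum (fun v hv => ?_)
  have hvn := Finset.mem_range.mp hv
  have hsd : ∀ J : Finset ℕ, P v ∩ (U \ J) = (P v ∩ U) \ J := by
    intro J; ext x; simp [and_assoc]
  simp_rw [hsd]
  set T := P v ∩ U with hT
  by_cases hh : r ≤ (T.card : ℝ)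
  · rw [if_pos hh]
    have hstep := hround v hvn T Finset.inter_subset_left hh
    have hbd : Ex p n (fun J => if r ≤ (((T \ J).card : ℕ) : ℝ) then
        Real.exp (1 * ((T \ J).card : ℝ)) else 0) ≤
        Ex p n (fun J => Real.exp (1 * T.card) *
          Real.exp (-((T ∩ J).card : ℝ))) := by
      apply S.Ex_mono_plain
      intro J
      have h2 : ((T \ J).card : ℝ) = T.card - (T ∩ J).card := by
        have := Finset.card_sdiff_add_card_inter T J
        rw [← this]; push_cast; ring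
      have h3 : Real.exp (1 * ((T \ J).card : ℝ)) =
          Real.exp (1 * T.card) * Real.exp (-((T ∩ J).card : ℝ)) := by
        rw [← Real.exp_add, h2]; congr 1; ring
      rw [← h3]
      split_ifs
      · exact le_rfl
      · exact (Real.exp_pos _).le
    rw [Ex_mul] at hbd
    refine hbd.trans ?_
    rw [mul_comm]
    exact mul_le_mul_of_nonneg_right hstep (Real.exp_pos _).le
  · rw [if_neg hh, mul_zero]
    apply le_of_eq
    have h0 : (fun J : Finset ℕ => if r ≤ (((T \ J).card : ℕ) : ℝ) then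
        Real.exp (1 * ((T \ J).card : ℝ)) else 0) = fun _ => 0 := by
      funext J
      rw [if_neg]
      intro h'
      apply hh
      refine h'.trans ?_
      exact_mod_cast Finset.card_le_card Finset.sdiff_subset
    rw [h0, Ex_const]

/-- `t` independent sets that leave fewer than `r` uncovered earlier neighbours everywhere. -/
theorem cover3 (S : Sys P W δ p) (n t : ℕ) (d r β : ℝ) (hβ : 0 ≤ β)
    (hP : ∀ v, v < n → ((P v).card : ℝ) ≤ d)
    (hround : ∀ v, v < n → ∀ T, T ⊆ P v → r ≤ (T.card : ℝ) →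
      Ex p n (fun I => Real.exp (-((T ∩ I).card : ℝ))) ≤ β)
    (ht : n * Real.exp d * β ^ t < 1) :
    ∃ I : ℕ → Finset ℕ, (∀ i, i < t → ∀ v ∈ I i, ∀ u ∈ P v, u ∉ I i) ∧
      ∀ v, v < n → (((P v).filter (fun u => ∀ i, i < t → u ∉ I i)).card : ℝ) < r := by
  have key : ∀ t : ℕ, ∃ I : ℕ → Finset ℕ, (∀ i, i < t → ∀ v ∈ I i, ∀ u ∈ P v, u ∉ I i) ∧
      pot P n r 1 ((range n).filter (fun u => ∀ i, i < t → u ∉ I i)) ≤
        β ^ t * pot P n r 1 (range n) := by
    intro t
    induction t with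
    | zero => exact ⟨fun _ => ∅, by simp, by simp⟩
    | succ t ih =>
      obtain ⟨I, hI1, hI2⟩ := ih
      set U := (range n).filter (fun u => ∀ i, i < t → u ∉ I i) with hU
      obtain ⟨J, hJ, hpot⟩ := one_round3 S n r β hround U
      refine ⟨Function.update I t J, ?_, ?_⟩
      · intro i hi v hv u hu
        by_cases hit : i = t
        · subst hit
          rw [Function.update_self] at hv ⊢
          exact hJ.2 v hv u hu
        · rw [Function.update_of_ne hit] at hv ⊢
          exact hI1 i (by omega) v hv u hu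
      · have hUJ : (range n).filter (fun u => ∀ i, i < t + 1 → u ∉ Function.update I t J i) =
            U \ J := by
          ext u
          simp only [hU, Finset.mem_filter, Finset.mem_sdiff]
          constructor
          · rintro ⟨h1, h2⟩
            refine ⟨⟨h1, ?_⟩, ?_⟩
            · intro i hi
              have := h2 i (by omega)
              rwa [Function.update_of_ne (by omega)] at this
            · have := h2 t (by omega)
              rwa [Function.update_self] at this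
          · rintro ⟨⟨h1, h2⟩, h3⟩
            refine ⟨h1, fun i hi => ?_⟩
            by_cases hit : i = t
            · subst hit; rwa [Function.update_self]
            · rw [Function.update_of_ne hit]
              exact h2 i (by omega)
        rw [hUJ]
        refine hpot.trans ?_
        rw [pow_succ' β t, mul_assoc]
        exact mul_le_mul_of_nonneg_left hI2 hβ
  obtain ⟨I, hI1, hI2⟩ := key t
  refine ⟨I, hI1, ?_⟩
  have h0 : pot P n r 1 (range n) ≤ n * Real.exp d := by
    unfold pot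
    calc (∑ v ∈ range n, if r ≤ ((P v ∩ range n).card : ℝ) then
          Real.exp (1 * ((P v ∩ range n).card : ℝ)) else 0)
        ≤ ∑ _v ∈ range n, Real.exp d := by
          refine Finset.sum_le_sum (fun v hv => ?_)
          split_ifs
          · apply Real.exp_le_exp.mpr
            rw [one_mul]
            refine le_trans ?_ (hP v (Finset.mem_range.mp hv))
            exact_mod_cast Finset.card_le_card Finset.inter_subset_left
          · exact (Real.exp_pos _).le
      _ = n * Real.exp d := by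
          rw [Finset.sum_const, Finset.card_range, nsmul_eq_mul]
  have h1 : pot P n r 1 ((range n).filter (fun u => ∀ i, i < t → u ∉ I i)) < 1 := by
    refine lt_of_le_of_lt hI2 (lt_of_le_of_lt (mul_le_mul_of_nonneg_left h0 (pow_nonneg hβ t)) ?_)
    refine lt_of_eq_of_lt ?_ ht
    ring
  intro v hv
  by_contra hcon
  push Not at hcon
  have hset : (P v).filter (fun u => ∀ i, i < t → u ∉ I i) =
      P v ∩ (range n).filter (fun u => ∀ i, i < t → u ∉ I i) := by
    ext u
    simp only [Finset.mem_filter, Finset.mem_inter]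
    constructor
    · rintro ⟨h2, h3⟩
      have := Finset.mem_range.mp (S.sub v h2)
      exact ⟨h2, Finset.mem_range.mpr (this.trans hv), h3⟩
    · rintro ⟨h2, _, h3⟩
      exact ⟨h2, h3⟩
  rw [hset] at hcon
  have h3 : (1 : ℝ) ≤ pot P n r 1 ((range n).filter (fun u => ∀ i, i < t → u ∉ I i)) := by
    unfold pot
    set U := (range n).filter (fun u => ∀ i, i < t → u ∉ I i) with hU
    calc (1 : ℝ) ≤ (if r ≤ ((P v ∩ U).card : ℝ) then
            Real.exp (1 * ((P v ∩ U).card : ℝ)) else 0) := by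
          rw [if_pos hcon]
          apply Real.one_le_exp
          positivity
      _ ≤ _ := by
          refine Finset.single_le_sum (f := fun v => (if r ≤ ((P v ∩ U).card : ℝ) then
            Real.exp (1 * ((P v ∩ U).card : ℝ)) else 0))
            (fun w _ => ?_) (Finset.mem_range.mpr hv)
          split_ifs
          · exact (Real.exp_pos _).le
          · exact le_rfl
  linarith

end Pool.Agent.Ram3
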